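import Pool.Agent.H82.AS.Targets

/-! TLB: the triples of height at most `X ^ (7 / 18)` with a large squarefull divisor. -/

set_option autoImplicit false

open Pool.Agent.H38.RB Pool.Agent.H38.PS Pool.Agent.H82.AS

namespace Pool.Agent.H20.AS.TLB

/-- The triples with given divisors. -/
def Bd (d : Fin 3 → ℕ) (T H : ℝ) : Set (Fin 3 → ℤ) :=
  {x | Adm x ∧ (∀ i, (d i : ℤ) ∣ x i) ∧ (pr x : ℝ) ≤ T ∧ (ht x : ℝ) ≤ H}

/-- The factorizations. -/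
noncomputable def Fc (D : ℕ) : Finset (Fin 3 → ℕ) := by
  classical
  exact (Fintype.piFinset fun _ : Fin 3 => D.divisors).filter fun d =>
    d 0 * d 1 * d 2 = D ∧ ∀ i j, i ≠ j → (d i).Coprime (d j)

theorem mem_Fc {D : ℕ} {d : Fin 3 → ℕ} : d ∈ Fc D ↔ (∀ i, d i ∈ D.divisors) ∧
    d 0 * d 1 * d 2 = D ∧ ∀ i j, i ≠ j → (d i).Coprime (d j) := by
  unfold Fc
  rw [Finset.mem_filter, Fintype.mem_piFinset]

theorem card_Fc (D : ℕ) : (Fc D).card ≤ D.divisors.card ^ 3 := by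
  unfold Fc
  refine (Finset.card_filter_le _ _).trans ?_
  rw [Fintype.card_piFinset]
  simp

theorem pr_le_ht (x : Fin 3 → ℤ) : pr x ≤ ht x ^ 3 := by
  have h : ∀ i, (x i).natAbs ≤ ht x := by
    intro i
    unfold ht
    fin_cases i
    · exact le_max_left _ _
    · exact (le_max_left _ _).trans (le_max_right _ _)
    · exact (le_max_right _ _).trans (le_max_right _ _)
  unfold pr
  rw [Int.natAbs_mul, Int.natAbs_mul]
  calc (x 0).natAbs * (x 1).natAbs * (x 2).natAbs ≤ ht x * ht x * ht x :=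
        Nat.mul_le_mul (Nat.mul_le_mul (h 0) (h 1)) (h 2)
    _ = ht x ^ 3 := by ring

theorem cover (hSQ : T_SQB) {X Y H : ℝ} (hX : 1 ≤ X) (hH : X ^ (7 / 18 : ℝ) ≤ H)
    {x : Fin 3 → ℤ} (hx : x ∈ TL X Y) (hh : (ht x : ℝ) ≤ X ^ (7 / 18 : ℝ)) :
    ∃ D : ℕ, (1 ≤ D ∧ D ≤ ⌊X ^ (7 / 6 : ℝ)⌋₊ ∧ Sqf D ∧ Y < (D : ℝ)) ∧
      ∃ d ∈ Fc D, x ∈ Bd d (X * ex D) H := by
  have hX0 : 0 < X := by linarith
  obtain ⟨hA, hr, D', hs', hD', hY⟩ := hx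
  have hn : 1 ≤ pr x := by
    unfold pr
    exact Nat.pos_of_ne_zero (Int.natAbs_ne_zero.2
      (mul_ne_zero (mul_ne_zero (hA.1 0) (hA.1 1)) (hA.1 2)))
  obtain ⟨q1, q2, q3, q4, q5, -, -⟩ := hSQ (pr x) hn
  obtain ⟨D, hDdef⟩ : ∃ D, D = Pool.Agent.H82.AS.sq (pr x) := ⟨_, rfl⟩
  rw [← hDdef] at q1 q2 q3 q4
  have hD1 : 1 ≤ D := Nat.pos_of_dvd_of_pos q2 hn
  have hDn : D ≤ pr x := Nat.le_of_dvd hn q2
  have hDX : (pr x : ℝ) ≤ X ^ (7 / 6 : ℝ) := by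
    calc (pr x : ℝ) ≤ (ht x : ℝ) ^ 3 := by exact_mod_cast pr_le_ht x
      _ ≤ (X ^ (7 / 18 : ℝ)) ^ 3 := pow_le_pow_left₀ (Nat.cast_nonneg _) hh 3
      _ = X ^ (7 / 6 : ℝ) := by
        rw [← Real.rpow_natCast, ← Real.rpow_mul hX0.le]
        congr 1
        norm_num
  have hDD : D' ≤ D := Nat.le_of_dvd hD1 (q4 D' hs' hD')
  refine ⟨D, ⟨hD1, hDn.trans (Nat.le_floor hDX), q1, lt_of_lt_of_le hY (by exact_mod_cast hDD)⟩,
    fun i => Nat.gcd D (x i).natAbs, ?_, hA, ?_, ?_, hh.trans hH⟩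
  · rw [mem_Fc]
    have c01 : (x 0).natAbs.Coprime (x 1).natAbs :=
      Int.isCoprime_iff_gcd_eq_one.1 (hA.2.1 0 1 (by decide))
    have c02 : (x 0).natAbs.Coprime (x 2).natAbs :=
      Int.isCoprime_iff_gcd_eq_one.1 (hA.2.1 0 2 (by decide))
    have c12 : (x 1).natAbs.Coprime (x 2).natAbs :=
      Int.isCoprime_iff_gcd_eq_one.1 (hA.2.1 1 2 (by decide))
    have c3 : ((x 0).natAbs * (x 1).natAbs).Coprime (x 2).natAbs := Nat.Coprime.mul_left c02 c12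
    refine ⟨fun i => Nat.mem_divisors.2 ⟨Nat.gcd_dvd_left _ _, by omega⟩, ?_, ?_⟩
    · show Nat.gcd D (x 0).natAbs * Nat.gcd D (x 1).natAbs * Nat.gcd D (x 2).natAbs = D
      rw [← c01.gcd_mul, ← c3.gcd_mul]
      apply Nat.gcd_eq_left
      have : pr x = (x 0).natAbs * (x 1).natAbs * (x 2).natAbs := by
        unfold pr
        rw [Int.natAbs_mul, Int.natAbs_mul]
      rw [← this]
      exact q2
    · intro i j hij
      have hc : (x i).natAbs.Coprime (x j).natAbs :=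
        Int.isCoprime_iff_gcd_eq_one.1 (hA.2.1 i j hij)
      exact Nat.Coprime.coprime_dvd_left (Nat.gcd_dvd_right _ _)
        (Nat.Coprime.coprime_dvd_right (Nat.gcd_dvd_right _ _) hc)
  · intro i
    exact Int.natCast_dvd.2 (Nat.gcd_dvd_right _ _)
  · have hpd : (0 : ℝ) < pd (pr x).primeFactors := by
      exact_mod_cast (Finset.prod_pos fun _ hp => (Nat.prime_of_mem_primeFactors hp).pos :
        0 < pd (pr x).primeFactors)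
    have e1 : (pr x : ℝ) = (pd (pr x).primeFactors : ℝ) * ex (pr x) := by
      unfold ex
      field_simp
    have e2 : 0 ≤ ex (pr x) := zero_le_one.trans (q5 _ dvd_rfl).1
    rw [q3, e1]
    exact mul_le_mul_of_nonneg_right hr e2

end Pool.Agent.H20.AS.TLB

namespace Pool.Agent.H20.AS

open Pool.Agent.H20.AS.TLB

theorem pf_TLB (hB : T_BXD) (hSQ : T_SQB) (hSS : T_SQS) (hST : T_SQT) (hDV : T_DVB) : T_TLB := by
  classical
  intro η hη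
  obtain ⟨μ, hμdef⟩ : ∃ μ : ℝ, μ = min η 1 := ⟨_, rfl⟩
  have hμ : 0 < μ := by rw [hμdef]; positivity
  have hμ1 : μ ≤ 1 := by rw [hμdef]; exact min_le_right _ _
  have hμη : μ ≤ η := by rw [hμdef]; exact min_le_left _ _
  obtain ⟨δ, hδdef⟩ : ∃ δ : ℝ, δ = μ / 200 := ⟨_, rfl⟩
  have hδ : 0 < δ := by rw [hδdef]; positivity
  obtain ⟨CB, hCB, hB⟩ := hB
  obtain ⟨CS, hCS, hSS⟩ := hSS
  obtain ⟨CT, hCT, hST⟩ := hST δ hδ
  obtain ⟨CD, hCD, hDV⟩ := hDV δ hδ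
  obtain ⟨M0, hM0def⟩ : ∃ M0 : ℝ, M0 = CD ^ 3 * CB * (2 ^ δ / δ) := ⟨_, rfl⟩
  have hM0 : 0 < M0 := by rw [hM0def]; positivity
  refine ⟨μ / 24, M0 * (CS + CT), by positivity, by positivity, ?_⟩
  intro X hX
  have hX0 : 0 < X := by linarith
  obtain ⟨H, hHdef⟩ : ∃ H : ℝ, H = max 2 (X ^ (7 / 18 : ℝ)) := ⟨_, rfl⟩
  have hH2 : 2 ≤ H := by rw [hHdef]; exact le_max_left _ _
  have hHX : X ^ (7 / 18 : ℝ) ≤ H := by rw [hHdef]; exact le_max_right _ _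
  have hH2X : H ≤ 2 * X := by
    rw [hHdef]
    apply max_le (by linarith)
    calc X ^ (7 / 18 : ℝ) ≤ X ^ (1 : ℝ) := Real.rpow_le_rpow_of_exponent_le hX (by norm_num)
      _ = X := Real.rpow_one X
      _ ≤ 2 * X := by linarith
  have hlog0 : 0 ≤ Real.log H := Real.log_nonneg (by linarith)
  have hlog : Real.log H ≤ 2 ^ δ / δ * X ^ δ := by
    calc Real.log H ≤ H ^ δ / δ := Real.log_le_rpow_div (by linarith) hδ
      _ ≤ (2 * X) ^ δ / δ :=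
        div_le_div_of_nonneg_right (Real.rpow_le_rpow (by linarith) hH2X hδ.le) hδ.le
      _ = 2 ^ δ / δ * X ^ δ := by
        rw [Real.mul_rpow (by norm_num) hX0.le]
        ring
  obtain ⟨W, hWdef⟩ : ∃ W : ℝ, W = X ^ (7 / 6 : ℝ) := ⟨_, rfl⟩
  have hW1 : 1 ≤ W := by rw [hWdef]; exact Real.one_le_rpow hX (by norm_num)
  obtain ⟨F, hFdef⟩ : ∃ F : Finset ℕ, F = (Finset.Icc 1 ⌊W⌋₊).filter
    fun D => Sqf D ∧ X ^ η < (D : ℝ) := ⟨_, rfl⟩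
  have hFm : ∀ D, D ∈ F ↔ (1 ≤ D ∧ D ≤ ⌊W⌋₊) ∧ Sqf D ∧ X ^ η < (D : ℝ) := by
    intro D
    rw [hFdef, Finset.mem_filter, Finset.mem_Icc]
  have hFW : ∀ D ∈ F, (D : ℝ) ≤ W := fun D hD =>
    (by exact_mod_cast ((hFm D).1 hD).1.2 : (D : ℝ) ≤ (⌊W⌋₊ : ℝ)).trans
      (Nat.floor_le (by linarith))
  have hex1 : ∀ D ∈ F, 1 ≤ ex D := fun D hD =>
    ((hSQ D ((hFm D).1 hD).1.1).2.2.2.2.1 D dvd_rfl).1
  obtain ⟨S, hSdef⟩ : ∃ S : Set (Fin 3 → ℤ), S = {x | x ∈ TL X (X ^ η) ∧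
    (ht x : ℝ) ≤ X ^ (7 / 18 : ℝ)} := ⟨_, rfl⟩
  rw [← hSdef]
  have hcov : S ⊆ ⋃ D ∈ F, ⋃ d ∈ Fc D, Bd d (X * ex D) H := by
    intro x hx
    rw [hSdef] at hx
    obtain ⟨D, ⟨hD1, hDW, hDs, hDY⟩, d, hd, hxB⟩ := cover hSQ hX hHX hx.1 hx.2
    rw [← hWdef] at hDW
    simp only [Set.mem_iUnion]
    exact ⟨D, (hFm D).2 ⟨⟨hD1, hDW⟩, hDs, hDY⟩, d, hd, hxB⟩
  have hBd : ∀ D ∈ F, ∀ d ∈ Fc D, (Bd d (X * ex D) H).Finite ∧
      ((Bd d (X * ex D) H).ncard : ℝ) ≤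
        CB * Real.log H * (X ^ (2 / 3 : ℝ) * (ex D ^ (2 / 3 : ℝ) / D) + 1) := by
    intro D hD d hd
    obtain ⟨hd1, hd2, hd3⟩ := mem_Fc.1 hd
    have hT : 1 ≤ X * ex D := by
      have := hex1 D hD
      nlinarith
    obtain ⟨g1, g2⟩ := hB d (X * ex D) H (fun i => Nat.pos_of_mem_divisors (hd1 i)) hd3 hT hH2
    refine ⟨g1, g2.trans (le_of_eq ?_)⟩
    have e1 : (d 0 : ℝ) * d 1 * d 2 = D := by exact_mod_cast hd2
    rw [e1, Real.mul_rpow hX0.le (by linarith [hex1 D hD]), mul_div_assoc]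
  have hfin : (⋃ D ∈ F, ⋃ d ∈ Fc D, Bd d (X * ex D) H).Finite :=
    Set.Finite.biUnion F.finite_toSet fun D hD =>
      Set.Finite.biUnion (Fc D).finite_toSet fun d hd => (hBd D hD d hd).1
  refine ⟨hfin.subset hcov, ?_⟩
  have hcard : ((⋃ D ∈ F, ⋃ d ∈ Fc D, Bd d (X * ex D) H).ncard : ℝ) ≤
      ∑ D ∈ F, ∑ d ∈ Fc D, ((Bd d (X * ex D) H).ncard : ℝ) := by
    have h1 : (⋃ D ∈ F, ⋃ d ∈ Fc D, Bd d (X * ex D) H).ncard ≤
        ∑ D ∈ F, ∑ d ∈ Fc D, (Bd d (X * ex D) H).ncard :=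
      (Finset.set_ncard_biUnion_le F _).trans
        (Finset.sum_le_sum fun D _ => Finset.set_ncard_biUnion_le (Fc D) _)
    exact_mod_cast h1
  have hDle : ∀ D ∈ F, ∑ d ∈ Fc D, ((Bd d (X * ex D) H).ncard : ℝ) ≤
      M0 * X ^ (9 / 2 * δ) * (X ^ (2 / 3 : ℝ) * (ex D ^ (2 / 3 : ℝ) / D) + 1) := by
    intro D hD
    have hD1 := ((hFm D).1 hD).1.1
    have h0 : 0 ≤ X ^ (2 / 3 : ℝ) * (ex D ^ (2 / 3 : ℝ) / D) + 1 := by
      have := hex1 D hD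
      positivity
    have h1 : ((Fc D).card : ℝ) ≤ CD ^ 3 * X ^ (7 / 2 * δ) := by
      calc ((Fc D).card : ℝ) ≤ (D.divisors.card : ℝ) ^ 3 := by exact_mod_cast card_Fc D
        _ ≤ (CD * X ^ (7 / 6 * δ)) ^ 3 := by
          apply pow_le_pow_left₀ (Nat.cast_nonneg _)
          refine (hDV D hD1).trans (mul_le_mul_of_nonneg_left ?_ hCD.le)
          calc (D : ℝ) ^ δ ≤ W ^ δ := Real.rpow_le_rpow (Nat.cast_nonneg _) (hFW D hD) hδ.le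
            _ = X ^ (7 / 6 * δ) := by rw [hWdef, ← Real.rpow_mul hX0.le]
        _ = CD ^ 3 * X ^ (7 / 2 * δ) := by
          rw [mul_pow, ← Real.rpow_natCast (X ^ (7 / 6 * δ)) 3, ← Real.rpow_mul hX0.le]
          congr 2
          push_cast
          ring
    calc ∑ d ∈ Fc D, ((Bd d (X * ex D) H).ncard : ℝ)
        ≤ ∑ _d ∈ Fc D, CB * Real.log H * (X ^ (2 / 3 : ℝ) * (ex D ^ (2 / 3 : ℝ) / D) + 1) :=
          Finset.sum_le_sum fun d hd => (hBd D hD d hd).2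
      _ = (Fc D).card * (CB * Real.log H * (X ^ (2 / 3 : ℝ) * (ex D ^ (2 / 3 : ℝ) / D) + 1)) := by
          rw [Finset.sum_const, nsmul_eq_mul]
      _ ≤ (CD ^ 3 * X ^ (7 / 2 * δ)) * (CB * (2 ^ δ / δ * X ^ δ) *
          (X ^ (2 / 3 : ℝ) * (ex D ^ (2 / 3 : ℝ) / D) + 1)) := by
          apply mul_le_mul h1 _ (by positivity) (by positivity)
          exact mul_le_mul_of_nonneg_right (mul_le_mul_of_nonneg_left hlog hCB.le) h0
      _ = M0 * X ^ (9 / 2 * δ) * (X ^ (2 / 3 : ℝ) * (ex D ^ (2 / 3 : ℝ) / D) + 1) := by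
          have e1 : X ^ (9 / 2 * δ) = X ^ (7 / 2 * δ) * X ^ δ := by
            rw [← Real.rpow_add hX0]
            congr 1
            ring
          rw [e1, hM0def]
          ring
  have hsum1 : ∑ D ∈ F, ex D ^ (2 / 3 : ℝ) / D ≤ CS * X ^ (-(η / 12)) := by
    have h1 := hSS (X ^ η) F (Real.one_le_rpow hX hη.le) fun D hD =>
      ⟨((hFm D).1 hD).2.1, ((hFm D).1 hD).1.1, ((hFm D).1 hD).2.2.le⟩
    have e1 : (X ^ η) ^ (-(1 / 12) : ℝ) = X ^ (-(η / 12)) := by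
      rw [← Real.rpow_mul hX0.le]
      congr 1
      ring
    rw [e1] at h1
    refine le_trans (Finset.sum_le_sum fun D hD => ?_) h1
    have hD1 : (1 : ℝ) ≤ D := by exact_mod_cast ((hFm D).1 hD).1.1
    have h2 : 1 ≤ (D : ℝ) ^ (1 / 24 : ℝ) := Real.one_le_rpow hD1 (by norm_num)
    have h3 : 0 ≤ ex D ^ (2 / 3 : ℝ) / D := by
      have := hex1 D hD
      positivity
    calc ex D ^ (2 / 3 : ℝ) / D = 1 * (ex D ^ (2 / 3 : ℝ) / D) := (one_mul _).symm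
      _ ≤ (D : ℝ) ^ (1 / 24 : ℝ) * (ex D ^ (2 / 3 : ℝ) / D) := mul_le_mul_of_nonneg_right h2 h3
      _ = (D : ℝ) ^ (1 / 24 : ℝ) * ex D ^ (2 / 3 : ℝ) / D := (mul_div_assoc _ _ _).symm
  have hsum2 : (F.card : ℝ) ≤ CT * X ^ (7 / 6 * (1 / 2 + δ)) := by
    have h1 := (hST W F hW1 fun D hD => ⟨((hFm D).1 hD).2.1, ((hFm D).1 hD).1.1, hFW D hD⟩).1
    rw [hWdef, ← Real.rpow_mul hX0.le] at h1
    exact h1
  have hle : ((S.ncard : ℕ) : ℝ) ≤ ((⋃ D ∈ F, ⋃ d ∈ Fc D, Bd d (X * ex D) H).ncard : ℝ) := by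
    exact_mod_cast Set.ncard_le_ncard hcov hfin
  have hM : 0 ≤ M0 * X ^ (9 / 2 * δ) := by positivity
  have hX23 : 0 ≤ X ^ (2 / 3 : ℝ) := by positivity
  have f1 : X ^ (9 / 2 * δ) * (X ^ (2 / 3 : ℝ) * X ^ (-(η / 12))) ≤ X ^ (2 / 3 - μ / 24) := by
    rw [← Real.rpow_add hX0, ← Real.rpow_add hX0]
    exact Real.rpow_le_rpow_of_exponent_le hX (by rw [hδdef]; linarith)
  have f2 : X ^ (9 / 2 * δ) * X ^ (7 / 6 * (1 / 2 + δ)) ≤ X ^ (2 / 3 - μ / 24) := by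
    rw [← Real.rpow_add hX0]
    exact Real.rpow_le_rpow_of_exponent_le hX (by rw [hδdef]; linarith)
  calc ((S.ncard : ℕ) : ℝ) ≤ ((⋃ D ∈ F, ⋃ d ∈ Fc D, Bd d (X * ex D) H).ncard : ℝ) := hle
    _ ≤ ∑ D ∈ F, ∑ d ∈ Fc D, ((Bd d (X * ex D) H).ncard : ℝ) := hcard
    _ ≤ ∑ D ∈ F, M0 * X ^ (9 / 2 * δ) *
        (X ^ (2 / 3 : ℝ) * (ex D ^ (2 / 3 : ℝ) / D) + 1) := Finset.sum_le_sum hDle
    _ = M0 * X ^ (9 / 2 * δ) * (X ^ (2 / 3 : ℝ) * ∑ D ∈ F, ex D ^ (2 / 3 : ℝ) / D + F.card) := by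
        rw [← Finset.mul_sum, Finset.sum_add_distrib, ← Finset.mul_sum, Finset.sum_const,
          nsmul_eq_mul, mul_one]
    _ ≤ M0 * X ^ (9 / 2 * δ) * (X ^ (2 / 3 : ℝ) * (CS * X ^ (-(η / 12))) +
        CT * X ^ (7 / 6 * (1 / 2 + δ))) :=
        mul_le_mul_of_nonneg_left (add_le_add (mul_le_mul_of_nonneg_left hsum1 hX23) hsum2) hM
    _ = M0 * CS * (X ^ (9 / 2 * δ) * (X ^ (2 / 3 : ℝ) * X ^ (-(η / 12)))) +
        M0 * CT * (X ^ (9 / 2 * δ) * X ^ (7 / 6 * (1 / 2 + δ))) := by ring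
    _ ≤ M0 * CS * X ^ (2 / 3 - μ / 24) + M0 * CT * X ^ (2 / 3 - μ / 24) :=
        add_le_add (mul_le_mul_of_nonneg_left f1 (by positivity))
          (mul_le_mul_of_nonneg_left f2 (by positivity))
    _ = M0 * (CS + CT) * X ^ (2 / 3 - μ / 24) := by ring

end Pool.Agent.H20.AS
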