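import Pool.Agent.H82.AS.Targets

/-! ARI: the area as an integral. -/

set_option autoImplicit false

open Pool.Agent.H38.RB Pool.Agent.H38.PS Pool.Agent.H82.AS MeasureTheory Set

namespace Pool.Agent.H20.AS.ARI

/-- The cube root. -/
noncomputable def hh (t : ℝ) : ℝ := (t * (1 + t)) ^ (-(1 / 3) : ℝ)

/-- The integrand. -/
noncomputable def ff (a t : ℝ) : ENNReal := if a ≤ hh t then ENNReal.ofReal a else 0

theorem hh_meas : Measurable hh := by
  unfold hh
  fun_prop

theorem ff_meas : Measurable (Function.uncurry ff) := by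
  unfold ff Function.uncurry
  exact Measurable.ite (measurableSet_le measurable_fst (hh_meas.comp measurable_snd))
    (ENNReal.measurable_ofReal.comp measurable_fst) measurable_const

theorem le_hh {a t : ℝ} (ha : 0 < a) (ht : 0 < t) : a ≤ hh t ↔ a * (a * t) * (a + a * t) ≤ 1 := by
  have h1 : 0 < t * (1 + t) := by positivity
  have h2 : 0 < hh t := by unfold hh; positivity
  have h3 : hh t ^ 3 = (t * (1 + t))⁻¹ := by
    unfold hh
    rw [← Real.rpow_natCast, ← Real.rpow_mul h1.le]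
    have : (-(1 / 3) : ℝ) * ((3 : ℕ) : ℝ) = -1 := by norm_num
    rw [this, Real.rpow_neg_one]
  have h4 : a * (a * t) * (a + a * t) = a ^ 3 * (t * (1 + t)) := by ring
  rw [h4, ← le_div_iff₀ h1, one_div, ← h3]
  exact (pow_le_pow_iff_left₀ ha.le h2.le (by norm_num)).symm

theorem inner1 (hG : T_GTB) {a : ℝ} (ha : 0 < a) :
    ∫⁻ t in Ioi (0 : ℝ), ff a t = ENNReal.ofReal (gT 1 a) := by
  obtain ⟨g1, -, g3, -, -⟩ := hG 1 zero_le_one
  have h0 : 0 ≤ gT 1 a := (g3 a ha).1
  have e1 : ∫⁻ t in Ioi (0 : ℝ), ff a t =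
      ∫⁻ t in Ioi (0 : ℝ), (Iic (gT 1 a / a)).indicator (fun _ => ENNReal.ofReal a) t := by
    apply setLIntegral_congr_fun measurableSet_Ioi
    intro t ht
    have ht' : 0 < t := ht
    have e2 : a ≤ hh t ↔ t ≤ gT 1 a / a := by
      rw [le_hh ha ht', g1 a (a * t) ha (by positivity), le_div_iff₀ ha, mul_comm a t]
    show ff a t = _
    unfold ff
    by_cases h : a ≤ hh t
    · rw [if_pos h, indicator_of_mem (show t ∈ Iic (gT 1 a / a) from e2.1 h)]
    · rw [if_neg h, indicator_of_notMem (show t ∉ Iic (gT 1 a / a) from fun h' => h (e2.2 h'))]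
  rw [e1, lintegral_indicator measurableSet_Iic, Measure.restrict_restrict measurableSet_Iic,
    lintegral_const, Measure.restrict_apply_univ, Iic_inter_Ioi, Real.volume_Ioc, sub_zero,
    ← ENNReal.ofReal_mul ha.le, mul_div_cancel₀ _ ha.ne']

theorem inner2 {t : ℝ} (ht : 0 < t) :
    ∫⁻ a in Ioi (0 : ℝ), ff a t = ENNReal.ofReal ((1 / 2) * (t * (1 + t)) ^ (-(2 / 3) : ℝ)) := by
  have h1 : 0 < t * (1 + t) := by positivity
  have h2 : 0 < hh t := by unfold hh; positivity
  have e1 : ∫⁻ a in Ioi (0 : ℝ), ff a t =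
      ∫⁻ a in Ioi (0 : ℝ), (Iic (hh t)).indicator (fun a => ENNReal.ofReal a) a := by
    apply lintegral_congr
    intro a
    unfold ff
    by_cases h : a ≤ hh t
    · rw [if_pos h, indicator_of_mem (show a ∈ Iic (hh t) from h)]
    · rw [if_neg h, indicator_of_notMem (show a ∉ Iic (hh t) from h)]
  have hi : IntegrableOn (fun a : ℝ => a) (Ioc 0 (hh t)) :=
    (continuous_id.integrableOn_Icc (a := 0) (b := hh t)).mono_set Ioc_subset_Icc_self
  have hnn : 0 ≤ᵐ[volume.restrict (Ioc 0 (hh t))] fun a : ℝ => a :=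
    (ae_restrict_iff' measurableSet_Ioc).2 (Filter.Eventually.of_forall fun a ha => ha.1.le)
  rw [e1, lintegral_indicator measurableSet_Iic, Measure.restrict_restrict measurableSet_Iic,
    Iic_inter_Ioi, ← ofReal_integral_eq_lintegral_ofReal hi hnn,
    ← intervalIntegral.integral_of_le h2.le, integral_id]
  congr 1
  have e2 : hh t ^ 2 = (t * (1 + t)) ^ (-(2 / 3) : ℝ) := by
    unfold hh
    rw [← Real.rpow_natCast, ← Real.rpow_mul h1.le]
    congr 1
    norm_num
  rw [e2]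
  ring

end Pool.Agent.H20.AS.ARI

namespace Pool.Agent.H20.AS

open Pool.Agent.H20.AS.ARI

theorem pf_ARI (hG : T_GTB) : T_ARI := by
  have hG' := hG
  obtain ⟨-, -, g3, -, -⟩ := hG 1 zero_le_one
  have hm : Measurable (gT 1) := by
    unfold gT
    fun_prop
  have hnn : 0 ≤ᵐ[volume.restrict (Ioi (0 : ℝ))] gT 1 :=
    (ae_restrict_iff' measurableSet_Ioi).2 (Filter.Eventually.of_forall fun a ha => (g3 a ha).1)
  have hm2 : Measurable (fun t : ℝ => (1 / 2) * (t * (1 + t)) ^ (-(2 / 3) : ℝ)) := by fun_prop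
  have hnn2 : 0 ≤ᵐ[volume.restrict (Ioi (0 : ℝ))]
      fun t : ℝ => (1 / 2) * (t * (1 + t)) ^ (-(2 / 3) : ℝ) := by
    refine (ae_restrict_iff' measurableSet_Ioi).2 (Filter.Eventually.of_forall fun t ht => ?_)
    have ht' : 0 < t := ht
    show (0 : ℝ) ≤ (1 / 2) * (t * (1 + t)) ^ (-(2 / 3) : ℝ)
    positivity
  have e1 : AR = ∫ t in Ioi (0 : ℝ), (1 / 2) * (t * (1 + t)) ^ (-(2 / 3) : ℝ) := by
    unfold AR
    rw [integral_eq_lintegral_of_nonneg_ae hnn hm.aestronglyMeasurable,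
      integral_eq_lintegral_of_nonneg_ae hnn2 hm2.aestronglyMeasurable]
    congr 1
    calc ∫⁻ a in Ioi (0 : ℝ), ENNReal.ofReal (gT 1 a)
        = ∫⁻ a in Ioi (0 : ℝ), ∫⁻ t in Ioi (0 : ℝ), ff a t :=
          setLIntegral_congr_fun measurableSet_Ioi fun a ha => (inner1 hG' ha).symm
      _ = ∫⁻ t in Ioi (0 : ℝ), ∫⁻ a in Ioi (0 : ℝ), ff a t :=
          lintegral_lintegral_swap ff_meas.aemeasurable
      _ = ∫⁻ t in Ioi (0 : ℝ), ENNReal.ofReal ((1 / 2) * (t * (1 + t)) ^ (-(2 / 3) : ℝ)) :=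
          setLIntegral_congr_fun measurableSet_Ioi fun t ht => inner2 ht
  show 2 * AR = _
  rw [e1, integral_const_mul]
  ring

end Pool.Agent.H20.AS
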