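import Pool.Agent.H82.AS.Targets

/-! IDN: the count as a sum over divisors. -/

set_option autoImplicit false

open Pool.Agent.H38.RB Pool.Agent.H38.PS Pool.Agent.H82.AS

namespace Pool.Agent.H20.AS

theorem adm_pr_pos {x : Fin 3 → ℤ} (hx : Adm x) : 1 ≤ pr x := by
  unfold pr
  exact Nat.pos_of_ne_zero (Int.natAbs_ne_zero.2
    (mul_ne_zero (mul_ne_zero (hx.1 0) (hx.1 1)) (hx.1 2)))

theorem natAbs_le_pr {x : Fin 3 → ℤ} (hx : ∀ i, x i ≠ 0) (i : Fin 3) : (x i).natAbs ≤ pr x := by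
  have h : ∀ j, 1 ≤ (x j).natAbs := fun j => Nat.pos_of_ne_zero (Int.natAbs_ne_zero.2 (hx j))
  unfold pr
  rw [Int.natAbs_mul, Int.natAbs_mul]
  have h0 := h 0
  have h1 := h 1
  have h2 := h 2
  fin_cases i
  · calc (x 0).natAbs = (x 0).natAbs * 1 * 1 := by ring
      _ ≤ (x 0).natAbs * (x 1).natAbs * (x 2).natAbs :=
        Nat.mul_le_mul (Nat.mul_le_mul_left _ h1) h2
  · calc (x 1).natAbs = 1 * (x 1).natAbs * 1 := by ring
      _ ≤ (x 0).natAbs * (x 1).natAbs * (x 2).natAbs :=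
        Nat.mul_le_mul (Nat.mul_le_mul_right _ h0) h2
  · calc (x 2).natAbs = 1 * 1 * (x 2).natAbs := by ring
      _ ≤ (x 0).natAbs * (x 1).natAbs * (x 2).natAbs :=
        Nat.mul_le_mul_right _ (Nat.mul_le_mul h0 h1)

theorem pr_le_finite (B : ℝ) : {x : Fin 3 → ℤ | Adm x ∧ (pr x : ℝ) ≤ B}.Finite := by
  refine (Set.finite_Icc (fun _ : Fin 3 => -(⌊B⌋₊ : ℤ)) (fun _ => (⌊B⌋₊ : ℤ))).subset ?_
  rintro x ⟨hA, hB⟩
  have h : ∀ i, |x i| ≤ (⌊B⌋₊ : ℤ) := by
    intro i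
    rw [Int.abs_eq_natAbs]
    exact_mod_cast (natAbs_le_pr hA.1 i).trans (Nat.le_floor hB)
  exact ⟨fun i => (abs_le.1 (h i)).1, fun i => (abs_le.1 (h i)).2⟩

theorem pd_pos (n : ℕ) : 0 < pd n.primeFactors :=
  Finset.prod_pos fun _ hp => (Nat.prime_of_mem_primeFactors hp).pos

theorem eq_rad_mul_ex (n : ℕ) : (n : ℝ) = (pd n.primeFactors : ℝ) * ex n := by
  have h : (0 : ℝ) < pd n.primeFactors := by exact_mod_cast pd_pos n
  unfold ex
  field_simp

/-- The inner sum. -/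
noncomputable def gg (X : ℝ) (n D : ℕ) : ℝ :=
  ∑ E ∈ D.divisors, (ArithmeticFunction.moebius (D / E) : ℝ) *
    (if (n : ℝ) ≤ X * ex E then 1 else 0)

/-- The sum over divisors for one number. -/
noncomputable def FF (X Y : ℝ) (n : ℕ) : ℝ :=
  ∑ D ∈ Finset.Icc 1 ⌊Y⌋₊, if D ∣ n then gg X n D else 0

theorem sum_gg (X : ℝ) (n : ℕ) (hn : 1 ≤ n) :
    ∑ D ∈ n.divisors, gg X n D = if (n : ℝ) ≤ X * ex n then 1 else 0 := by
  have h := (ArithmeticFunction.sum_eq_iff_sum_smul_moebius_eq (R := ℝ)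
    (f := fun D => gg X n D) (g := fun E => if (n : ℝ) ≤ X * ex E then 1 else 0)).2 (by
    intro D hD
    rw [Nat.sum_divisorsAntidiagonal' (f := fun a b => ArithmeticFunction.moebius a •
      (if (n : ℝ) ≤ X * ex b then (1 : ℝ) else 0))]
    unfold gg
    apply Finset.sum_congr rfl
    intro E hE
    rw [zsmul_eq_mul])
  exact h n hn

theorem FF_a (hSQ : T_SQB) (hP : T_PAI) (X Y : ℝ) (n : ℕ) (hn : 1 ≤ n)
    (hr : (pd n.primeFactors : ℝ) ≤ X) (hD : ∀ D : ℕ, Sqf D → D ∣ n → (D : ℝ) ≤ Y) :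
    FF X Y n = 1 := by
  classical
  obtain ⟨-, -, -, -, hE, -, -⟩ := hSQ n hn
  have h1 : FF X Y n = ∑ D ∈ n.divisors, gg X n D := by
    unfold FF
    rw [← Finset.sum_filter]
    apply Finset.sum_subset_zero_on_sdiff
    · intro D hD'
      rw [Finset.mem_filter] at hD'
      exact Nat.mem_divisors.2 ⟨hD'.2, by omega⟩
    · intro D hD'
      rw [Finset.mem_sdiff, Nat.mem_divisors, Finset.mem_filter, Finset.mem_Icc] at hD'
      obtain ⟨⟨hDn, _⟩, hno⟩ := hD'
      have hD1 : 1 ≤ D := Nat.pos_of_dvd_of_pos hDn hn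
      have hnot : ¬ Sqf D := by
        intro hs
        exact hno ⟨⟨hD1, Nat.le_floor (hD D hs hDn)⟩, hDn⟩
      exact hP (fun u => if (n : ℝ) ≤ X * u then 1 else 0) D hD1 hnot
    · intro D _
      rfl
  rw [h1, sum_gg X n hn, if_pos]
  have hex : 0 ≤ ex n := (zero_le_one).trans (hE n dvd_rfl).1
  calc (n : ℝ) = (pd n.primeFactors : ℝ) * ex n := eq_rad_mul_ex n
    _ ≤ X * ex n := mul_le_mul_of_nonneg_right hr hex

theorem FF_b (hSQ : T_SQB) (X Y : ℝ) (n : ℕ) (hn : 1 ≤ n) (hX : 0 ≤ X)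
    (hr : X < (pd n.primeFactors : ℝ)) : FF X Y n = 0 := by
  obtain ⟨-, -, -, -, hE, -, -⟩ := hSQ n hn
  unfold FF
  apply Finset.sum_eq_zero
  intro D _
  split_ifs with hDn
  · unfold gg
    apply Finset.sum_eq_zero
    intro E hE'
    have hEn : E ∣ n := (Nat.dvd_of_mem_divisors hE').trans hDn
    rw [if_neg, mul_zero]
    push Not
    have hex : 0 < ex n := zero_lt_one.trans_le (hE n dvd_rfl).1
    calc X * ex E ≤ X * ex n := mul_le_mul_of_nonneg_left (hE E hEn).2 hX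
      _ < (pd n.primeFactors : ℝ) * ex n := mul_lt_mul_of_pos_right hr hex
      _ = n := (eq_rad_mul_ex n).symm
  · rfl

theorem FF_c (hSQ : T_SQB) (X Y : ℝ) (n : ℕ) (hn : 1 ≤ n) (hX : 0 ≤ X) (hY : 0 ≤ Y) :
    |FF X Y n| ≤ if (n : ℝ) ≤ X * Y then (n.divisors.card : ℝ) ^ 2 else 0 := by
  classical
  unfold FF
  rw [← Finset.sum_filter]
  have hsub : (Finset.Icc 1 ⌊Y⌋₊).filter (fun D => D ∣ n) ⊆ n.divisors := by
    intro D hD
    rw [Finset.mem_filter] at hD
    exact Nat.mem_divisors.2 ⟨hD.2, by omega⟩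
  split_ifs with hXY
  · refine (Finset.abs_sum_le_sum_abs _ _).trans ?_
    have h1 : ∀ D ∈ (Finset.Icc 1 ⌊Y⌋₊).filter (fun D => D ∣ n),
        |gg X n D| ≤ (n.divisors.card : ℝ) := by
      intro D hD
      unfold gg
      refine (Finset.abs_sum_le_sum_abs _ _).trans ?_
      have hDn : D ∣ n := (Finset.mem_filter.1 hD).2
      have h2 : ∀ E ∈ D.divisors, |(ArithmeticFunction.moebius (D / E) : ℝ) *
          (if (n : ℝ) ≤ X * ex E then 1 else 0)| ≤ 1 := by
        intro E _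
        rw [abs_mul]
        have h3 : |((ArithmeticFunction.moebius (D / E) : ℤ) : ℝ)| ≤ 1 := by
          exact_mod_cast ArithmeticFunction.abs_moebius_le_one
        have h4 : |(if (n : ℝ) ≤ X * ex E then (1 : ℝ) else 0)| ≤ 1 := by
          split_ifs <;> simp
        calc _ ≤ (1 : ℝ) * 1 := mul_le_mul h3 h4 (abs_nonneg _) zero_le_one
          _ = 1 := one_mul 1
      refine (Finset.sum_le_sum h2).trans ?_
      rw [Finset.sum_const, nsmul_eq_mul, mul_one]
      exact_mod_cast Finset.card_le_card (Nat.divisors_subset_of_dvd (by omega) hDn)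
    refine (Finset.sum_le_sum h1).trans ?_
    rw [Finset.sum_const, nsmul_eq_mul, pow_two]
    exact mul_le_mul_of_nonneg_right (by exact_mod_cast Finset.card_le_card hsub)
      (Nat.cast_nonneg _)
  · rw [Finset.sum_eq_zero, abs_zero]
    intro D hD
    rw [Finset.mem_filter, Finset.mem_Icc] at hD
    unfold gg
    apply Finset.sum_eq_zero
    intro E hE
    have hED : E ∣ D := Nat.dvd_of_mem_divisors hE
    have hE1 : 1 ≤ E := Nat.pos_of_mem_divisors hE
    rw [if_neg, mul_zero]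
    push Not at hXY ⊢
    have hle : E ≤ D := Nat.le_of_dvd (by omega) hED
    have hEY : (E : ℝ) ≤ Y := by
      calc (E : ℝ) ≤ D := by exact_mod_cast hle
        _ ≤ (⌊Y⌋₊ : ℝ) := by exact_mod_cast hD.1.2
        _ ≤ Y := Nat.floor_le hY
    have hex : ex E ≤ E := (hSQ E hE1).2.2.2.2.2.1
    exact lt_of_le_of_lt (mul_le_mul_of_nonneg_left (hex.trans hEY) hX) hXY

theorem pf_IDN (hSQ : T_SQB) (hDV : T_DVB) (hP : T_PAI) : T_IDN := by
  classical
  intro ε hε
  obtain ⟨C1, hC1, h1⟩ := hDV (ε / 4) (by positivity)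
  refine ⟨1 + C1 ^ 2, by positivity, ?_⟩
  intro X Y hY hYX hNS
  have hX1 : 1 ≤ X := hY.trans hYX
  have hX0 : 0 < X := by linarith
  have hfin2 := pr_le_finite (X * Y)
  obtain ⟨U, hU⟩ : ∃ U : Finset (Fin 3 → ℤ), U = (hNS.union hfin2).toFinset := ⟨_, rfl⟩
  have hUmem : ∀ x, x ∈ U ↔ x ∈ NS X ∨ (Adm x ∧ (pr x : ℝ) ≤ X * Y) := by
    intro x
    rw [hU, Set.Finite.mem_toFinset]
    exact Iff.rfl
  have hUA : ∀ x ∈ U, Adm x := by
    intro x hx
    rcases (hUmem x).1 hx with h | h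
    · exact h.1
    · exact h.1
  have cnt : ∀ (S : Set (Fin 3 → ℤ)), S ⊆ ↑U → (S.ncard : ℝ) = ∑ x ∈ U, if x ∈ S then 1 else 0 := by
    intro S hS
    have e1 : S = ((U.filter fun x => x ∈ S : Finset (Fin 3 → ℤ)) : Set (Fin 3 → ℤ)) := by
      ext x
      simp only [Finset.coe_filter, Set.mem_ofPred_eq]
      exact ⟨fun h => ⟨hS h, h⟩, fun h => h.2⟩
    conv_lhs => rw [e1]
    rw [Set.ncard_coe_finset, Finset.card_filter]
    push_cast
    rfl
  have hNSU : NS X ⊆ ↑U := fun x hx => (hUmem x).2 (Or.inl hx)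
  have hTLU : TL X Y ⊆ ↑U := fun x hx => (hUmem x).2 (Or.inl ⟨hx.1, hx.2.1⟩)
  have e2 : ∑ D ∈ Finset.Icc 1 ⌊Y⌋₊, ∑ E ∈ D.divisors,
      (ArithmeticFunction.moebius (D / E) : ℝ) * ((AD D (X * ex E)).ncard : ℝ) =
      ∑ x ∈ U, FF X Y (pr x) := by
    unfold FF
    rw [Finset.sum_comm]
    apply Finset.sum_congr rfl
    intro D hD
    rw [Finset.mem_Icc] at hD
    have e3 : ∀ E ∈ D.divisors, ((AD D (X * ex E)).ncard : ℝ) =
        ∑ x ∈ U, if D ∣ pr x then (if (pr x : ℝ) ≤ X * ex E then 1 else 0) else 0 := by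
      intro E hE
      have hED : E ∣ D := Nat.dvd_of_mem_divisors hE
      have hE1 : 1 ≤ E := Nat.pos_of_mem_divisors hE
      have hEY : (E : ℝ) ≤ Y := by
        calc (E : ℝ) ≤ D := by exact_mod_cast Nat.le_of_dvd (by omega) hED
          _ ≤ (⌊Y⌋₊ : ℝ) := by exact_mod_cast hD.2
          _ ≤ Y := Nat.floor_le (by linarith)
      have hex : ex E ≤ E := (hSQ E hE1).2.2.2.2.2.1
      rw [cnt]
      · apply Finset.sum_congr rfl
        intro x hx
        have hA := hUA x hx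
        by_cases g1 : D ∣ pr x
        · by_cases g2 : (pr x : ℝ) ≤ X * ex E
          · rw [if_pos g1, if_pos g2, if_pos (show x ∈ AD D (X * ex E) from ⟨hA, g1, g2⟩)]
          · rw [if_pos g1, if_neg g2, if_neg (fun h => g2 h.2.2)]
        · rw [if_neg g1, if_neg (fun h => g1 h.2.1)]
      · rintro x ⟨hA, _, hx⟩
        exact (hUmem x).2 (Or.inr ⟨hA, hx.trans
          (mul_le_mul_of_nonneg_left (hex.trans hEY) hX0.le)⟩)
    rw [Finset.sum_congr rfl fun E hE => by rw [e3 E hE]]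
    simp only [Finset.mul_sum]
    rw [Finset.sum_comm]
    apply Finset.sum_congr rfl
    intro x _
    split_ifs with g1
    · rfl
    · simp
  rw [e2, cnt _ hNSU, ← Finset.sum_sub_distrib]
  refine (Finset.abs_sum_le_sum_abs _ _).trans ?_
  rw [cnt _ hTLU, Finset.mul_sum]
  apply Finset.sum_le_sum
  intro x hx
  have hA := hUA x hx
  have hn := adm_pr_pos hA
  by_cases g1 : x ∈ TL X Y
  · have g2 : x ∈ NS X := ⟨g1.1, g1.2.1⟩
    rw [if_pos g1, if_pos g2, mul_one]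
    have h3 := FF_c hSQ X Y (pr x) hn hX0.le (by linarith)
    have h4 : |FF X Y (pr x)| ≤ C1 ^ 2 * X ^ ε := by
      refine h3.trans ?_
      split_ifs with g3
      · have h5 := h1 (pr x) hn
        have h6 : ((pr x : ℕ) : ℝ) ^ (ε / 4) ≤ X ^ (ε / 2) := by
          calc ((pr x : ℕ) : ℝ) ^ (ε / 4) ≤ (X * X) ^ (ε / 4) :=
                Real.rpow_le_rpow (Nat.cast_nonneg _)
                  (g3.trans (mul_le_mul_of_nonneg_left hYX hX0.le)) (by positivity)
            _ = X ^ (ε / 2) := by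
                rw [Real.mul_rpow hX0.le hX0.le, ← Real.rpow_add hX0]
                congr 1
                ring
        calc (((pr x).divisors.card : ℝ)) ^ 2 ≤ (C1 * X ^ (ε / 2)) ^ 2 :=
              pow_le_pow_left₀ (Nat.cast_nonneg _)
                (h5.trans (mul_le_mul_of_nonneg_left h6 hC1.le)) 2
          _ = C1 ^ 2 * X ^ ε := by
              rw [mul_pow, ← Real.rpow_natCast (X ^ (ε / 2)) 2, ← Real.rpow_mul hX0.le]
              congr 2
              push_cast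
              ring
      · positivity
    have h7 : 1 ≤ X ^ ε := Real.one_le_rpow hX1 hε.le
    calc |1 - FF X Y (pr x)| ≤ |(1 : ℝ)| + |FF X Y (pr x)| := abs_sub _ _
      _ ≤ 1 + C1 ^ 2 * X ^ ε := by rw [abs_one]; linarith
      _ ≤ (1 + C1 ^ 2) * X ^ ε := by nlinarith
  · rw [if_neg g1, mul_zero]
    have h8 : (if x ∈ NS X then (1 : ℝ) else 0) - FF X Y (pr x) = 0 := by
      by_cases g2 : (pd (pr x).primeFactors : ℝ) ≤ X
      · rw [if_pos (show x ∈ NS X from ⟨hA, g2⟩), FF_a hSQ hP X Y (pr x) hn g2, sub_self]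
        intro D hs hDn
        by_contra hcon
        push Not at hcon
        exact g1 ⟨hA, g2, D, hs, hDn, hcon⟩
      · rw [if_neg (fun h => g2 h.2), FF_b hSQ X Y (pr x) hn hX0.le (not_le.1 g2), sub_self]
    rw [h8, abs_zero]

end Pool.Agent.H20.AS
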