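import Pool.Agent.H82.AS.Targets

/-! MOB: coprime triples with given divisors. -/

set_option autoImplicit false

open Pool.Agent.H38.RB Pool.Agent.H38.PS Pool.Agent.H82.AS

namespace Pool.Agent.H20.AS

theorem sum_moebius (g : ℕ) : ∑ k ∈ g.divisors, (ArithmeticFunction.moebius k : ℝ) =
    if g = 1 then 1 else 0 := by
  have h := ArithmeticFunction.coe_mul_zeta_apply (f := ArithmeticFunction.moebius) (x := g)
  rw [ArithmeticFunction.moebius_mul_coe_zeta, ArithmeticFunction.one_apply] at h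
  rw [← Int.cast_sum, ← h]
  split_ifs <;> simp

theorem adm_iff {y : Fin 3 → ℤ} (h0 : ∀ i, y i ≠ 0) (hs : y 0 + y 1 + y 2 = 0) :
    Adm y ↔ Int.gcd (y 0) (y 1) = 1 := by
  constructor
  · intro h
    exact Int.isCoprime_iff_gcd_eq_one.1 (h.2.1 0 1 (by decide))
  · intro h
    obtain ⟨a, b, hab⟩ := Int.isCoprime_iff_gcd_eq_one.2 h
    have h2 : y 2 = -(y 0 + y 1) := by linarith
    have c01 : IsCoprime (y 0) (y 1) := ⟨a, b, hab⟩
    have c02 : IsCoprime (y 0) (y 2) := ⟨a - b, -b, by rw [h2]; linarith⟩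
    have c12 : IsCoprime (y 1) (y 2) := ⟨b - a, -a, by rw [h2]; linarith⟩
    refine ⟨h0, ?_, hs⟩
    intro i j hij
    fin_cases i <;> fin_cases j
    · exact absurd rfl hij
    · exact c01
    · exact c02
    · exact c01.symm
    · exact absurd rfl hij
    · exact c12
    · exact c02.symm
    · exact c12.symm
    · exact absurd rfl hij

/-- The new divisors. -/
def dk (d : Fin 3 → ℕ) (k : ℕ) : Fin 3 → ℕ := fun i => d i / Nat.gcd k (d i)

theorem dk_dvd (d : Fin 3 → ℕ) (k : ℕ) (i : Fin 3) : dk d k i ∣ d i :=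
  Nat.div_dvd_of_dvd (Nat.gcd_dvd_right k (d i))

theorem dk_mul (d : Fin 3 → ℕ) (k : ℕ) (i : Fin 3) : dk d k i * Nat.gcd k (d i) = d i :=
  Nat.div_mul_cancel (Nat.gcd_dvd_right k (d i))

theorem dk_pos {d : Fin 3 → ℕ} (hd : ∀ i, 1 ≤ d i) (k : ℕ) (i : Fin 3) : 1 ≤ dk d k i :=
  Nat.pos_of_dvd_of_pos (dk_dvd d k i) (hd i)

theorem dk_iff {d : Fin 3 → ℕ} (hd : ∀ i, 1 ≤ d i) {k : ℕ} (i : Fin 3) (z : ℤ) :
    (d i : ℤ) ∣ (k : ℤ) * z ↔ (dk d k i : ℤ) ∣ z := by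
  have hg : 0 < Nat.gcd k (d i) := Nat.gcd_pos_of_pos_right k (hd i)
  have hcop : Nat.Coprime (k / Nat.gcd k (d i)) (d i / Nat.gcd k (d i)) :=
    Nat.coprime_div_gcd_div_gcd hg
  have hk : (k : ℤ) = (Nat.gcd k (d i) : ℤ) * ((k / Nat.gcd k (d i) : ℕ) : ℤ) := by
    exact_mod_cast (Nat.mul_div_cancel' (Nat.gcd_dvd_left k (d i))).symm
  have hdi : (d i : ℤ) = (Nat.gcd k (d i) : ℤ) * (dk d k i : ℤ) := by
    exact_mod_cast (Nat.mul_div_cancel' (Nat.gcd_dvd_right k (d i))).symm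
  constructor
  · intro h
    rw [hdi] at h
    conv at h => rhs; rw [hk]
    rw [mul_assoc] at h
    have h1 := Int.dvd_of_mul_dvd_mul_left (by exact_mod_cast hg.ne') h
    have hc : IsCoprime ((dk d k i : ℕ) : ℤ) ((k / Nat.gcd k (d i) : ℕ) : ℤ) :=
      Nat.isCoprime_iff_coprime.2 hcop.symm
    exact hc.dvd_of_dvd_mul_left h1
  · intro h
    rw [hdi]
    conv => rhs; rw [hk]
    rw [mul_assoc]
    exact mul_dvd_mul_left _ (h.mul_left _)

theorem pr_smul (k : ℕ) (z : Fin 3 → ℤ) : pr (fun i => (k : ℤ) * z i) = k ^ 3 * pr z := by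
  unfold pr
  have : (k : ℤ) * z 0 * ((k : ℤ) * z 1) * ((k : ℤ) * z 2) = (k : ℤ) ^ 3 * (z 0 * z 1 * z 2) := by
    ring
  rw [this, Int.natAbs_mul, Int.natAbs_pow, Int.natAbs_natCast]

theorem image_eq {d : Fin 3 → ℕ} (hd : ∀ i, 1 ≤ d i) (T : ℝ) {k : ℕ} (hk : 1 ≤ k) :
    (fun (z : Fin 3 → ℤ) => fun i => (k : ℤ) * z i) '' L3 (dk d k) (T / (k : ℝ) ^ 3) =
      {y | y ∈ L3 d T ∧ k ∣ Int.gcd (y 0) (y 1)} := by
  have hk0 : (k : ℤ) ≠ 0 := by exact_mod_cast (by omega : k ≠ 0)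
  have hkr : (0 : ℝ) < (k : ℝ) ^ 3 := by positivity
  ext y
  constructor
  · rintro ⟨z, ⟨h0, hs, hdv, hT⟩, rfl⟩
    refine ⟨⟨fun i => mul_ne_zero hk0 (h0 i), ?_, fun i => (dk_iff hd i _).2 (hdv i), ?_⟩, ?_⟩
    · show (k : ℤ) * z 0 + (k : ℤ) * z 1 + (k : ℤ) * z 2 = 0
      rw [← mul_add, ← mul_add, hs, mul_zero]
    · rw [pr_smul]
      push_cast
      rw [le_div_iff₀ hkr] at hT
      linarith
    · rw [← Int.natCast_dvd_natCast]
      exact Int.dvd_coe_gcd (dvd_mul_right _ _) (dvd_mul_right _ _)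
  · rintro ⟨⟨h0, hs, hdv, hT⟩, hg⟩
    have hg' : (k : ℤ) ∣ (Int.gcd (y 0) (y 1) : ℤ) := by exact_mod_cast hg
    have k0 : (k : ℤ) ∣ y 0 := hg'.trans (Int.gcd_dvd_left _ _)
    have k1 : (k : ℤ) ∣ y 1 := hg'.trans (Int.gcd_dvd_right _ _)
    have k2 : (k : ℤ) ∣ y 2 := by
      have : y 2 = -(y 0 + y 1) := by linarith
      rw [this]
      exact (k0.add k1).neg_right
    have kk : ∀ i, (k : ℤ) ∣ y i := by
      intro i
      fin_cases i
      · exact k0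
      · exact k1
      · exact k2
    have hy : y = fun i => (k : ℤ) * (y i / k) := by
      funext i
      exact (Int.mul_ediv_cancel' (kk i)).symm
    refine ⟨fun i => y i / k, ⟨?_, ?_, ?_, ?_⟩, hy.symm⟩
    · intro i hi
      apply h0 i
      rw [congrFun hy i]
      have hi' : y i / (k : ℤ) = 0 := hi
      show (k : ℤ) * (y i / k) = 0
      rw [hi', mul_zero]
    · show y 0 / (k : ℤ) + y 1 / k + y 2 / k = 0
      rw [← Int.add_ediv_of_dvd_left k0, ← Int.add_ediv_of_dvd_left (k0.add k1), hs, Int.zero_ediv]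
    · intro i
      rw [← dk_iff hd i, ← congrFun hy i]
      exact hdv i
    · rw [le_div_iff₀ hkr]
      have h1 := pr_smul k (fun i => y i / k)
      rw [← hy] at h1
      rw [h1] at hT
      push_cast at hT
      linarith

theorem pr_ge {y : Fin 3 → ℤ} (h0 : ∀ i, y i ≠ 0) : 1 ≤ pr y := by
  unfold pr
  exact Nat.pos_of_ne_zero (Int.natAbs_ne_zero.2 (mul_ne_zero (mul_ne_zero (h0 0) (h0 1)) (h0 2)))

theorem abs_le_pr {y : Fin 3 → ℤ} (h0 : ∀ i, y i ≠ 0) : (y 0).natAbs ≤ pr y := by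
  have h1 : 1 ≤ (y 1).natAbs := Nat.pos_of_ne_zero (Int.natAbs_ne_zero.2 (h0 1))
  have h2 : 1 ≤ (y 2).natAbs := Nat.pos_of_ne_zero (Int.natAbs_ne_zero.2 (h0 2))
  unfold pr
  rw [Int.natAbs_mul, Int.natAbs_mul]
  calc (y 0).natAbs = (y 0).natAbs * 1 * 1 := by ring
    _ ≤ (y 0).natAbs * (y 1).natAbs * (y 2).natAbs :=
      Nat.mul_le_mul (Nat.mul_le_mul_left _ h1) h2

/-- The count as a sum over `k`. -/
theorem ad_sum {d : Fin 3 → ℕ} (hd : ∀ i, 1 ≤ d i) {T : ℝ} (hf : (L3 d T).Finite) {K : ℕ}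
    (hK : ⌊T⌋₊ ≤ K) :
    ((Ad d T).ncard : ℝ) = ∑ k ∈ Finset.Icc 1 K, (ArithmeticFunction.moebius k : ℝ) *
      ((L3 (dk d k) (T / (k : ℝ) ^ 3)).ncard : ℝ) := by
  classical
  obtain ⟨U, hU⟩ : ∃ U : Finset (Fin 3 → ℤ), U = hf.toFinset := ⟨_, rfl⟩
  have hUm : ∀ y, y ∈ U ↔ y ∈ L3 d T := fun y => by rw [hU, Set.Finite.mem_toFinset]
  have e1 : Ad d T = ((U.filter fun y => Int.gcd (y 0) (y 1) = 1 : Finset (Fin 3 → ℤ)) :
      Set (Fin 3 → ℤ)) := by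
    ext y
    rw [Finset.coe_filter]
    constructor
    · rintro ⟨hA, hdv, hT⟩
      exact ⟨(hUm y).2 ⟨hA.1, hA.2.2, hdv, hT⟩, (adm_iff hA.1 hA.2.2).1 hA⟩
    · rintro ⟨hy, hg⟩
      obtain ⟨h0, hs, hdv, hT⟩ := (hUm y).1 hy
      exact ⟨(adm_iff h0 hs).2 hg, hdv, hT⟩
  have e2 : ∀ k ∈ Finset.Icc 1 K, ((L3 (dk d k) (T / (k : ℝ) ^ 3)).ncard : ℝ) =
      ∑ y ∈ U, if k ∣ Int.gcd (y 0) (y 1) then 1 else 0 := by
    intro k hk
    have hk1 : 1 ≤ k := (Finset.mem_Icc.1 hk).1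
    have hinj : Function.Injective (fun (z : Fin 3 → ℤ) => fun i => (k : ℤ) * z i) := by
      intro z z' hzz
      funext i
      have := congrFun hzz i
      exact mul_left_cancel₀ (by exact_mod_cast (by omega : k ≠ 0)) this
    rw [← Set.ncard_image_of_injective _ hinj, image_eq hd T hk1]
    have e3 : {y | y ∈ L3 d T ∧ k ∣ Int.gcd (y 0) (y 1)} =
        ((U.filter fun y => k ∣ Int.gcd (y 0) (y 1) : Finset (Fin 3 → ℤ)) :
          Set (Fin 3 → ℤ)) := by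
      ext y
      rw [Finset.coe_filter]
      exact ⟨fun h => ⟨(hUm y).2 h.1, h.2⟩, fun h => ⟨(hUm y).1 h.1, h.2⟩⟩
    rw [e3, Set.ncard_coe_finset, Finset.card_filter]
    push_cast
    rfl
  rw [Finset.sum_congr rfl fun k hk => by rw [e2 k hk]]
  simp only [Finset.mul_sum]
  rw [Finset.sum_comm, e1, Set.ncard_coe_finset, Finset.card_filter]
  push_cast
  apply Finset.sum_congr rfl
  intro y hy
  obtain ⟨h0, hs, hdv, hT⟩ := (hUm y).1 hy
  have hg1 : 1 ≤ Int.gcd (y 0) (y 1) := Int.gcd_pos_of_ne_zero_left _ (h0 0)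
  have hgK : Int.gcd (y 0) (y 1) ≤ K := by
    have h1 : Int.gcd (y 0) (y 1) ≤ (y 0).natAbs :=
      Nat.le_of_dvd (Nat.pos_of_ne_zero (Int.natAbs_ne_zero.2 (h0 0))) (Nat.gcd_dvd_left _ _)
    exact (h1.trans (abs_le_pr h0)).trans ((Nat.le_floor hT).trans hK)
  rw [← sum_moebius]
  rw [Finset.sum_congr rfl fun k _ => (mul_ite_zero (P := k ∣ Int.gcd (y 0) (y 1))
    (a := (ArithmeticFunction.moebius k : ℝ)) (b := 1))]
  rw [← Finset.sum_filter]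
  simp only [mul_one]
  apply Finset.sum_congr _ fun _ _ => rfl
  ext k
  rw [Nat.mem_divisors, Finset.mem_filter, Finset.mem_Icc]
  constructor
  · rintro ⟨h1, h2⟩
    exact ⟨⟨Nat.pos_of_dvd_of_pos h1 hg1, (Nat.le_of_dvd hg1 h1).trans hgK⟩, h1⟩
  · rintro ⟨-, h1⟩
    exact ⟨h1, by omega⟩

theorem gcd_prod {d : Fin 3 → ℕ} (hc : ∀ i j, i ≠ j → (d i).Coprime (d j)) (k : ℕ) :
    Nat.gcd k (d 0 * d 1 * d 2) = Nat.gcd k (d 0) * Nat.gcd k (d 1) * Nat.gcd k (d 2) := by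
  have h01 : (d 0).Coprime (d 1) := hc 0 1 (by decide)
  have h2 : (d 0 * d 1).Coprime (d 2) :=
    Nat.Coprime.mul_left (hc 0 2 (by decide)) (hc 1 2 (by decide))
  rw [h2.gcd_mul, h01.gcd_mul]

theorem main_eq {d : Fin 3 → ℕ} (hd : ∀ i, 1 ≤ d i) (hc : ∀ i j, i ≠ j → (d i).Coprime (d j))
    {T : ℝ} (hT : 0 ≤ T) {k : ℕ} (hk : 1 ≤ k) :
    6 * AR * (T / (k : ℝ) ^ 3) ^ (2 / 3 : ℝ) / ((dk d k 0 : ℝ) * dk d k 1 * dk d k 2) =
      6 * AR * T ^ (2 / 3 : ℝ) / ((d 0 : ℝ) * d 1 * d 2) *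
        ((Nat.gcd k (d 0 * d 1 * d 2) : ℝ) / (k : ℝ) ^ 2) := by
  have hk0 : (0 : ℝ) < k := by exact_mod_cast hk
  have e1 : (T / (k : ℝ) ^ 3) ^ (2 / 3 : ℝ) = T ^ (2 / 3 : ℝ) / (k : ℝ) ^ 2 := by
    rw [Real.div_rpow hT (by positivity)]
    congr 1
    rw [← Real.rpow_natCast, ← Real.rpow_mul hk0.le, ← Real.rpow_natCast]
    congr 1
    norm_num
  have hg : ∀ i, (0 : ℝ) < (Nat.gcd k (d i) : ℝ) := fun i => by
    exact_mod_cast Nat.gcd_pos_of_pos_right k (hd i)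
  have hdk : ∀ i, (0 : ℝ) < (dk d k i : ℝ) := fun i => by exact_mod_cast dk_pos hd k i
  have e2 : ∀ i, (d i : ℝ) = (dk d k i : ℝ) * (Nat.gcd k (d i) : ℝ) := fun i => by
    exact_mod_cast (dk_mul d k i).symm
  rw [e1, gcd_prod hc, e2 0, e2 1, e2 2]
  push_cast
  have g0 := (hg 0).ne'
  have g1 := (hg 1).ne'
  have g2 := (hg 2).ne'
  have k0 := (hdk 0).ne'
  have k1 := (hdk 1).ne'
  have k2 := (hdk 2).ne'
  field_simp

theorem pf_MOB (hL : T_LTR) : T_MOB := by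
  classical
  obtain ⟨C, hC, h⟩ := hL
  have hsum : Summable (fun k : ℕ => 1 / (k : ℝ) ^ (3 / 2 : ℝ)) :=
    Real.summable_one_div_nat_rpow.2 (by norm_num)
  obtain ⟨S, hS⟩ : ∃ S : ℝ, S = ∑' k : ℕ, 1 / (k : ℝ) ^ (3 / 2 : ℝ) := ⟨_, rfl⟩
  have hS0 : 0 ≤ S := by
    rw [hS]
    exact tsum_nonneg fun k => by positivity
  refine ⟨C * S + 1, by positivity, ?_⟩
  intro d T hd hc hT
  obtain ⟨hf, -⟩ := h d T hd hc hT
  have hfA : (Ad d T).Finite := hf.subset fun x hx => ⟨hx.1.1, hx.1.2.2, hx.2.1, hx.2.2⟩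
  refine ⟨hfA, ?_⟩
  obtain ⟨A, hA⟩ : ∃ A : ℝ, A = 6 * AR * T ^ (2 / 3 : ℝ) / ((d 0 : ℝ) * d 1 * d 2) := ⟨_, rfl⟩
  obtain ⟨D, hD⟩ : ∃ D : ℕ, D = d 0 * d 1 * d 2 := ⟨_, rfl⟩
  have hDne : D ≠ 0 := by
    rw [hD]
    have h0 := hd 0
    have h1 := hd 1
    have h2 := hd 2
    positivity
  have hdkc : ∀ k, ∀ i j, i ≠ j → (dk d k i).Coprime (dk d k j) := fun k i j hij =>
    Nat.Coprime.coprime_dvd_left (dk_dvd d k i) (Nat.Coprime.coprime_dvd_right (dk_dvd d k j)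
      (hc i j hij))
  -- the two sequences
  obtain ⟨a, ha⟩ : ∃ a : ℕ → ℝ, a = fun k => if k ∈ Finset.Icc 1 ⌊T⌋₊ then
    (ArithmeticFunction.moebius k : ℝ) * ((L3 (dk d k) (T / (k : ℝ) ^ 3)).ncard : ℝ) else 0 :=
    ⟨_, rfl⟩
  obtain ⟨b, hb⟩ : ∃ b : ℕ → ℝ, b = fun k => (ArithmeticFunction.moebius k : ℝ) *
    (Nat.gcd k D : ℝ) / (k : ℝ) ^ 2 := ⟨_, rfl⟩
  have hmu : ∀ k : ℕ, |((ArithmeticFunction.moebius k : ℤ) : ℝ)| ≤ 1 := fun k => by
    exact_mod_cast ArithmeticFunction.abs_moebius_le_one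
  have hbs : Summable b := by
    have h2 : Summable (fun k : ℕ => (D : ℝ) * (1 / (k : ℝ) ^ 2)) :=
      (Real.summable_one_div_nat_pow.2 (by norm_num)).mul_left _
    refine Summable.of_norm_bounded h2 fun k => ?_
    rw [hb, Real.norm_eq_abs]
    show |(ArithmeticFunction.moebius k : ℝ) * (Nat.gcd k D : ℝ) / (k : ℝ) ^ 2| ≤ _
    rw [abs_div, abs_mul, Nat.abs_cast, abs_of_nonneg (by positivity : (0 : ℝ) ≤ (k : ℝ) ^ 2),
      ← mul_one_div]
    have h3 : (Nat.gcd k D : ℝ) ≤ D := by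
      exact_mod_cast Nat.gcd_le_right k (Nat.pos_of_ne_zero hDne)
    refine mul_le_mul_of_nonneg_right ?_ (by positivity)
    calc |((ArithmeticFunction.moebius k : ℤ) : ℝ)| * (Nat.gcd k D : ℝ) ≤ 1 * (D : ℝ) :=
          mul_le_mul (hmu k) h3 (Nat.cast_nonneg _) zero_le_one
      _ = D := one_mul _
  have has : HasSum a (((Ad d T).ncard : ℝ)) := by
    have h1 : ∑ k ∈ Finset.Icc 1 ⌊T⌋₊, a k = ((Ad d T).ncard : ℝ) := by
      rw [ad_sum hd hf le_rfl]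
      apply Finset.sum_congr rfl
      intro k hk
      rw [ha]
      exact if_pos hk
    rw [← h1]
    apply hasSum_sum_of_ne_finset_zero
    intro k hk
    rw [ha]
    exact if_neg hk
  have hterm : ∀ k : ℕ, ‖a k - A * b k‖ ≤ C * T ^ (1 / 2 : ℝ) * (1 / (k : ℝ) ^ (3 / 2 : ℝ)) := by
    intro k
    rw [Real.norm_eq_abs]
    rcases Nat.eq_zero_or_pos k with rfl | hk
    · have h1 : a 0 = 0 := by rw [ha]; simp
      have h2 : b 0 = 0 := by rw [hb]; simp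
      rw [h1, h2, mul_zero, sub_zero, abs_zero]
      positivity
    · have hk0 : (0 : ℝ) < k := by exact_mod_cast hk
      obtain ⟨-, h3⟩ := h (dk d k) (T / (k : ℝ) ^ 3) (dk_pos hd k) (hdkc k) (by positivity)
      rw [main_eq hd hc hT hk, ← hA, ← hD] at h3
      have h4 : (T / (k : ℝ) ^ 3) ^ (1 / 2 : ℝ) = T ^ (1 / 2 : ℝ) * (1 / (k : ℝ) ^ (3 / 2 : ℝ)) := by
        have e3 : ((3 : ℕ) : ℝ) * (1 / 2) = 3 / 2 := by norm_num
        rw [Real.div_rpow hT (by positivity), ← Real.rpow_natCast, ← Real.rpow_mul hk0.le, e3]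
        ring
      rw [h4, ← mul_assoc] at h3
      have h5 : a k = (ArithmeticFunction.moebius k : ℝ) *
          ((L3 (dk d k) (T / (k : ℝ) ^ 3)).ncard : ℝ) := by
        rw [ha]
        show (if k ∈ Finset.Icc 1 ⌊T⌋₊ then _ else _) = _
        by_cases hkT : k ∈ Finset.Icc 1 ⌊T⌋₊
        · rw [if_pos hkT]
        · rw [if_neg hkT]
          have hkT' : T < k := by
            rw [Finset.mem_Icc, not_and] at hkT
            exact (Nat.floor_lt hT).1 (not_le.1 (hkT hk))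
          have h6 : L3 (dk d k) (T / (k : ℝ) ^ 3) = ∅ := by
            rw [Set.eq_empty_iff_forall_notMem]
            rintro z ⟨z0, -, -, zT⟩
            have h7 : (1 : ℝ) ≤ pr z := by exact_mod_cast pr_ge z0
            rw [le_div_iff₀ (by positivity)] at zT
            have h8 : (k : ℝ) ≤ (k : ℝ) ^ 3 := by
              have hk1 : (1 : ℝ) ≤ k := by exact_mod_cast hk
              nlinarith [mul_nonneg hk0.le (sub_nonneg.2 hk1), mul_nonneg (mul_nonneg hk0.le hk0.le)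
                (sub_nonneg.2 hk1)]
            nlinarith [mul_le_mul_of_nonneg_right h7 (by positivity : (0 : ℝ) ≤ (k : ℝ) ^ 3)]
          rw [h6, Set.ncard_empty, Nat.cast_zero, mul_zero]
      have h9 : A * b k = (ArithmeticFunction.moebius k : ℝ) *
          (A * ((Nat.gcd k D : ℝ) / (k : ℝ) ^ 2)) := by
        rw [hb]
        ring
      rw [h5, h9, ← mul_sub, abs_mul]
      calc _ ≤ 1 * _ := mul_le_mul_of_nonneg_right (hmu k) (abs_nonneg _)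
        _ = _ := one_mul _
        _ ≤ _ := h3
  have hAb : Summable fun k => A * b k := hbs.mul_left A
  have e1 : ((Ad d T).ncard : ℝ) - 6 * AR * T ^ (2 / 3 : ℝ) * kp (d 0 * d 1 * d 2) /
      ((d 0 : ℝ) * d 1 * d 2) = ∑' k, (a k - A * b k) := by
    rw [has.summable.tsum_sub hAb, has.tsum_eq, tsum_mul_left, ← hD]
    have e2 : kp D = ∑' k, b k := by rw [hb]; rfl
    rw [← e2, hA]
    ring
  rw [e1]
  have hbd := tsum_of_norm_bounded ((hsum.mul_left (C * T ^ (1 / 2 : ℝ))).hasSum) hterm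
  rw [Real.norm_eq_abs, tsum_mul_left, ← hS] at hbd
  have hT2 : 0 ≤ T ^ (1 / 2 : ℝ) := by positivity
  calc _ ≤ C * T ^ (1 / 2 : ℝ) * S := hbd
    _ ≤ (C * S + 1) * T ^ (1 / 2 : ℝ) := by nlinarith

end Pool.Agent.H20.AS
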